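import Mathlib

set_option autoImplicit false
open scoped Classical

/-! Basic counting in finite generalized quadrangles of order `(s,t)`. -/

namespace Pool.Agent.Helper298

/-- A finite generalized quadrangle of order `(s,t)`. -/
structure GQ {P L : Type*} [Fintype P] [Fintype L] (I : P → L → Prop) (s t : ℕ) : Prop where
  cl : ∀ l : L, (Finset.univ.filter (fun p => I p l)).card = s + 1
  cp : ∀ p : P, (Finset.univ.filter (fun l => I p l)).card = t + 1
  pl : ∀ (p q : P) (l m : L), p ≠ q → I p l → I q l → I p m → I q m → l = m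
  ax : ∀ (p : P) (l : L), ¬ I p l → ∃! q : P, I q l ∧ ∃ m : L, I p m ∧ I q m

/-- Two lines meet (a line meets itself if it has a point). -/
def meets {P L : Type*} (I : P → L → Prop) (a b : L) : Prop := ∃ p, I p a ∧ I p b

theorem meets_comm {P L : Type*} {I : P → L → Prop} {a b : L} : meets I a b ↔ meets I b a :=
  ⟨fun ⟨p, h1, h2⟩ => ⟨p, h2, h1⟩, fun ⟨p, h1, h2⟩ => ⟨p, h2, h1⟩⟩

variable {P L : Type*} [Fintype P] [Fintype L] {I : P → L → Prop} {s t : ℕ}

namespace GQ

theorem tri (h : GQ I s t) {p q q' : P} {l m m' : L} (hpl : ¬ I p l) (hq : I q l) (hq' : I q' l)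
    (h1 : I p m) (h2 : I q m) (h3 : I p m') (h4 : I q' m') : q = q' ∧ m = m' := by
  have e : q = q' := (h.ax p l hpl).unique ⟨hq, m, h1, h2⟩ ⟨hq', m', h3, h4⟩
  subst e
  refine ⟨rfl, h.pl p q m m' ?_ h1 h2 h3 h4⟩
  rintro rfl; exact hpl hq

theorem proj (h : GQ I s t) {p : P} {l : L} (hpl : ¬ I p l) :
    ∃ q m, I q l ∧ I p m ∧ I q m := by
  obtain ⟨q, ⟨hq, m, h1, h2⟩, -⟩ := h.ax p l hpl
  exact ⟨q, m, hq, h1, h2⟩

/-- the unique line through `p` meeting `l` -/
theorem dproj (h : GQ I s t) {p : P} {l : L} (hpl : ¬ I p l) :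
    ∃ m, I p m ∧ meets I m l := by
  obtain ⟨q, m, hq, h1, h2⟩ := h.proj hpl
  exact ⟨m, h1, q, h2, hq⟩

theorem dproj_unique (h : GQ I s t) {p : P} {l m m' : L} (hpl : ¬ I p l) (h1 : I p m)
    (h2 : meets I m l) (h3 : I p m') (h4 : meets I m' l) : m = m' := by
  obtain ⟨q, hq, hq'⟩ := h2
  obtain ⟨r, hr, hr'⟩ := h4
  exact (h.tri hpl hq' hr' h1 hq h3 hr).2

/-- two distinct lines meet in at most one point -/
theorem pt_unique (h : GQ I s t) {l m : L} (hlm : l ≠ m) {p q : P} (h1 : I p l) (h2 : I p m)
    (h3 : I q l) (h4 : I q m) : p = q := by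
  by_contra hne
  exact hlm (h.pl p q l m hne h1 h3 h2 h4)

theorem exists_pt (h : GQ I s t) (l : L) : ∃ p, I p l := by
  have := h.cl l
  have h2 : 0 < (Finset.univ.filter (fun p => I p l)).card := by omega
  obtain ⟨p, hp⟩ := Finset.card_pos.mp h2
  exact ⟨p, by simpa using hp⟩

theorem meets_self (h : GQ I s t) (l : L) : meets I l l := by
  obtain ⟨p, hp⟩ := h.exists_pt l
  exact ⟨p, hp, hp⟩

/-- Lines meeting two distinct concurrent lines go through their common point. -/
theorem through_of_meets (h : GQ I s t) {K T N : L} (hne : K ≠ T) {z : P} (hzK : I z K)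
    (hzT : I z T) (h1 : meets I N K) (h2 : meets I N T) : I z N := by
  obtain ⟨a, haN, haK⟩ := h1
  obtain ⟨b, hbN, hbT⟩ := h2
  by_contra hz
  have e := h.tri hz haN hbN hzK haK hzT hbT
  exact hne e.2

theorem inter_meet (h : GQ I s t) {K T : L} (hne : K ≠ T) {z : P} (hzK : I z K)
    (hzT : I z T) :
    (Finset.univ.filter (fun N => meets I N K ∧ meets I N T)).card = t + 1 := by
  rw [← h.cp z]
  congr 1
  ext N
  simp only [Finset.mem_filter, Finset.mem_univ, true_and]
  exact ⟨fun ⟨h1, h2⟩ => h.through_of_meets hne hzK hzT h1 h2, fun hz => ⟨⟨z, hz, hzK⟩, ⟨z, hz, hzT⟩⟩⟩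

/-- Two distinct transversals of two disjoint lines are disjoint. -/
theorem trans_disj (h : GQ I s t) {K M T T' : L} (hKM : ¬ meets I K M) (hTT : T ≠ T')
    (h1 : meets I T K) (h2 : meets I T M) (h3 : meets I T' K) (h4 : meets I T' M) :
    ¬ meets I T T' := by
  rintro ⟨z, hz, hz'⟩
  have hK : I z K := h.through_of_meets hTT hz hz' (meets_comm.mp h1) (meets_comm.mp h3)
  have hM : I z M := h.through_of_meets hTT hz hz' (meets_comm.mp h2) (meets_comm.mp h4)
  exact hKM ⟨z, hK, hM⟩

/-- double counting -/
theorem dc {A B : Type*} (S : Finset A) (T : Finset B) (R : A → B → Prop)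
    [∀ a b, Decidable (R a b)] :
    ∑ a ∈ S, (T.filter (fun b => R a b)).card = ∑ b ∈ T, (S.filter (fun a => R a b)).card := by
  simp only [Finset.card_filter]
  exact Finset.sum_comm

/-- `s+1` transversals of two disjoint lines -/
theorem card_trans (h : GQ I s t) {K M : L} (hKM : ¬ meets I K M) :
    (Finset.univ.filter (fun N => meets I N K ∧ meets I N M)).card = s + 1 := by
  have e := dc (Finset.univ.filter (fun p => I p K))
    (Finset.univ.filter (fun N => meets I N K ∧ meets I N M)) I
  have e1 : ∀ p ∈ (Finset.univ.filter (fun p => I p K)),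
      ((Finset.univ.filter (fun N => meets I N K ∧ meets I N M)).filter (fun N => I p N)).card
        = 1 := by
    intro p hp
    simp only [Finset.mem_filter, Finset.mem_univ, true_and] at hp
    have hpM : ¬ I p M := fun hh => hKM ⟨p, hp, hh⟩
    obtain ⟨m, hm1, hm2⟩ := h.dproj hpM
    rw [Finset.card_eq_one]
    refine ⟨m, ?_⟩
    ext N
    simp only [Finset.mem_filter, Finset.mem_univ, true_and, Finset.mem_singleton]
    constructor
    · rintro ⟨⟨_, h2⟩, h3⟩
      exact h.dproj_unique hpM h3 h2 hm1 hm2
    · rintro rfl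
      exact ⟨⟨⟨p, hm1, hp⟩, hm2⟩, hm1⟩
  have e2 : ∀ N ∈ (Finset.univ.filter (fun N => meets I N K ∧ meets I N M)),
      ((Finset.univ.filter (fun p => I p K)).filter (fun p => I p N)).card = 1 := by
    intro N hN
    simp only [Finset.mem_filter, Finset.mem_univ, true_and] at hN
    obtain ⟨⟨q, hq1, hq2⟩, hNM⟩ := hN
    have hne : N ≠ K := by rintro rfl; exact hKM hNM
    rw [Finset.card_eq_one]
    refine ⟨q, ?_⟩
    ext p
    simp only [Finset.mem_filter, Finset.mem_univ, true_and, Finset.mem_singleton]
    constructor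
    · rintro ⟨h1, h2⟩
      exact h.pt_unique hne h2 h1 hq1 hq2
    · rintro rfl
      exact ⟨hq2, hq1⟩
  rw [Finset.sum_congr rfl e1, Finset.sum_congr rfl e2] at e
  simp only [Finset.sum_const, smul_eq_mul, mul_one] at e
  rw [← e, h.cl K]

theorem card_meet (h : GQ I s t) (K : L) :
    (Finset.univ.filter (fun N => meets I N K)).card = 1 + (s + 1) * t := by
  have e := dc (Finset.univ.filter (fun p => I p K))
    (Finset.univ.filter (fun N => meets I N K ∧ N ≠ K)) I
  have e1 : ∀ p ∈ (Finset.univ.filter (fun p => I p K)),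
      ((Finset.univ.filter (fun N => meets I N K ∧ N ≠ K)).filter (fun N => I p N)).card
        = t := by
    intro p hp
    simp only [Finset.mem_filter, Finset.mem_univ, true_and] at hp
    have hcp := h.cp p
    have : (Finset.univ.filter (fun N => meets I N K ∧ N ≠ K)).filter (fun N => I p N)
        = (Finset.univ.filter (fun l => I p l)).erase K := by
      ext N
      simp only [Finset.mem_filter, Finset.mem_univ, true_and, Finset.mem_erase]
      constructor
      · rintro ⟨⟨_, h2⟩, h3⟩
        exact ⟨h2, h3⟩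
      · rintro ⟨h2, h3⟩
        exact ⟨⟨⟨p, h3, hp⟩, h2⟩, h3⟩
    rw [this, Finset.card_erase_of_mem (by simpa using hp), hcp]
    simp
  have e2 : ∀ N ∈ (Finset.univ.filter (fun N => meets I N K ∧ N ≠ K)),
      ((Finset.univ.filter (fun p => I p K)).filter (fun p => I p N)).card = 1 := by
    intro N hN
    simp only [Finset.mem_filter, Finset.mem_univ, true_and] at hN
    obtain ⟨⟨q, hq1, hq2⟩, hne⟩ := hN
    rw [Finset.card_eq_one]
    refine ⟨q, ?_⟩
    ext p
    simp only [Finset.mem_filter, Finset.mem_univ, true_and, Finset.mem_singleton]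
    constructor
    · rintro ⟨h1, h2⟩
      exact h.pt_unique hne h2 h1 hq1 hq2
    · rintro rfl
      exact ⟨hq2, hq1⟩
  rw [Finset.sum_congr rfl e1, Finset.sum_congr rfl e2] at e
  simp only [Finset.sum_const, smul_eq_mul, mul_one] at e
  rw [h.cl K] at e
  have : (Finset.univ.filter (fun N => meets I N K ∧ N ≠ K))
      = (Finset.univ.filter (fun N => meets I N K)).erase K := by
    ext N
    simp only [Finset.mem_filter, Finset.mem_univ, true_and, Finset.mem_erase]
    tauto
  rw [this, Finset.card_erase_of_mem (by simpa using h.meets_self K)] at e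
  have hpos : 0 < (Finset.univ.filter (fun N => meets I N K)).card :=
    Finset.card_pos.mpr ⟨K, by simpa using h.meets_self K⟩
  omega

/-- number of lines disjoint from a line -/
theorem card_disj (h : GQ I s t) (K : L) :
    (Finset.univ.filter (fun N => ¬ meets I N K)).card = s * t * t := by
  have e := dc (Finset.univ.filter (fun N => ¬ meets I N K))
    (Finset.univ.filter (fun T => meets I T K ∧ T ≠ K)) (fun N T => meets I N T)
  have e1 : ∀ N ∈ (Finset.univ.filter (fun N => ¬ meets I N K)),
      ((Finset.univ.filter (fun T => meets I T K ∧ T ≠ K)).filter (fun T => meets I N T)).card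
        = s + 1 := by
    intro N hN
    simp only [Finset.mem_filter, Finset.mem_univ, true_and] at hN
    rw [← h.card_trans hN]
    congr 1
    ext T
    simp only [Finset.mem_filter, Finset.mem_univ, true_and]
    constructor
    · rintro ⟨⟨h1, h2⟩, h3⟩
      exact ⟨meets_comm.mp h3, h1⟩
    · rintro ⟨h1, h2⟩
      refine ⟨⟨h2, ?_⟩, meets_comm.mp h1⟩
      rintro rfl
      exact hN (meets_comm.mp h1)
  have e2 : ∀ T ∈ (Finset.univ.filter (fun T => meets I T K ∧ T ≠ K)),
      ((Finset.univ.filter (fun N => ¬ meets I N K)).filter (fun N => meets I N T)).card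
        = s * t := by
    intro T hT
    simp only [Finset.mem_filter, Finset.mem_univ, true_and] at hT
    obtain ⟨⟨z, hz1, hz2⟩, hne⟩ := hT
    have a1 := h.card_meet T
    have a2 := h.inter_meet hne hz1 hz2
    have a3 : (Finset.univ.filter (fun N => meets I N T)).card
        = (Finset.univ.filter (fun N => meets I N T ∧ meets I N K)).card
          + ((Finset.univ.filter (fun N => ¬ meets I N K)).filter (fun N => meets I N T)).card := by
      rw [← Finset.card_filter_add_card_filter_not (s := Finset.univ.filter (fun N => meets I N T))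
        (fun N => meets I N K)]
      congr 1
      · congr 1
        ext N; simp
      · congr 1
        ext N; simp; tauto
    nlinarith
  rw [Finset.sum_congr rfl e1, Finset.sum_congr rfl e2] at e
  simp only [Finset.sum_const, smul_eq_mul] at e
  have h3 : (Finset.univ.filter (fun T => meets I T K ∧ T ≠ K)).card = (s + 1) * t := by
    have : (Finset.univ.filter (fun N => meets I N K ∧ N ≠ K))
        = (Finset.univ.filter (fun N => meets I N K)).erase K := by
      ext N
      simp only [Finset.mem_filter, Finset.mem_univ, true_and, Finset.mem_erase]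
      tauto
    rw [this, Finset.card_erase_of_mem (by simpa using h.meets_self K), h.card_meet K]
    omega
  rw [h3] at e
  have h4 : (s + 1) * ((Finset.univ.filter (fun N => ¬ meets I N K)).card)
      = (s + 1) * (s * t * t) := by
    rw [mul_comm, e]; ring
  exact Nat.eq_of_mul_eq_mul_left (by omega) h4

end GQ

end Pool.Agent.Helper298
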