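import Pool.Agent.Helper298_GQ.Fix

set_option autoImplicit false
open scoped Classical

/-! Symmetries commute with line stabilisers, and line stabilisers generate. -/

namespace Pool.Agent.Helper298

variable {P L : Type*} [Fintype P] [Fintype L] {I : P → L → Prop} {s t : ℕ} {x : P}
  {G : Subgroup (Equiv.Perm P × Equiv.Perm L)}

namespace EGQ

/-- The line joining two collinear points off `x^⊥` is fixed by the elation mapping one to the
other. -/
theorem fix_line (h : EGQ I s t x G) {g : Equiv.Perm P × Equiv.Perm L} (hg : g ∈ G) {y : P} {M : L}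
    (hM : ¬ I x M) (hy : ¬ ∃ l : L, I x l ∧ I y l) (hyM : I y M) (hgy : I (g.1 y) M) :
    g.2 M = M := by
  obtain ⟨Ui, hxUi, hUiM⟩ := h.toGQ.dproj hM
  have h1 : ¬ I (g.1 y) Ui := by
    intro hh
    rw [← (h.fx g hg).2 Ui hxUi, h.inc g hg] at hh
    exact hy ⟨Ui, hxUi, hh⟩
  have h2 : I (g.1 y) (g.2 M) := (h.inc g hg _ _).mpr hyM
  have h3 : meets I (g.2 M) Ui := by
    rw [← (h.fx g hg).2 Ui hxUi, h.meets_map hg]; exact meets_comm.mp hUiM
  exact h.toGQ.dproj_unique h1 h2 h3 hgy (meets_comm.mp hUiM)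

/-- If the stabilisers of lines fix all lines through the projection of `x`, they commute with
the symmetries. -/
theorem comm_of_fix (h : EGQ I s t x G) (ht : 1 < t)
    (hfix : ∀ g ∈ G, ∀ (K Ui : L) (u : P), ¬ I x K → g.2 K = K → I x Ui → I u Ui → I u K →
      ∀ T : L, I u T → g.2 T = T)
    {σ : Equiv.Perm P × Equiv.Perm L} (hσ : σ ∈ G)
    (hσx : ∀ p : P, (∃ l : L, I x l ∧ I p l) → σ.1 p = p)
    {g : Equiv.Perm P × Equiv.Perm L} (hg : g ∈ G) {M : L} (hM : ¬ I x M) (hgM : g.2 M = M)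
    {y : P} (hyM : I y M) (hy : ¬ ∃ l : L, I x l ∧ I y l) : σ * g = g * σ := by
  obtain ⟨Ui, hxUi, hUiM⟩ := h.toGQ.dproj hM
  obtain ⟨u, huU, huM⟩ := hUiM
  have hσu : σ.1 u = u := hσx u ⟨Ui, hxUi, huU⟩
  have huσM : I u (σ.2 M) := by
    have := (h.inc σ hσ u M).mpr huM
    rwa [hσu] at this
  have hgσM : g.2 (σ.2 M) = σ.2 M := hfix g hg M Ui u hM hgM hxUi huU huM _ huσM
  obtain ⟨U, hU⟩ : ∃ U, I x U ∧ U ≠ Ui := by
    have h1 := h.cp x
    have h2 : 1 < (Finset.univ.filter (fun l => I x l)).card := by omega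
    obtain ⟨U, hU1, hU2⟩ := Finset.exists_mem_ne h2 Ui
    exact ⟨U, by simpa using hU1, hU2⟩
  obtain ⟨hxU, hUne⟩ := hU
  have hyU : ¬ I y U := fun hh => hy ⟨U, hxU, hh⟩
  obtain ⟨w, m, hwU, hym, hwm⟩ := h.toGQ.proj hyU
  have hσw : σ.1 w = w := hσx w ⟨U, hxU, hwU⟩
  have hgwU : I (g.1 w) U := by
    have := (h.inc g hg w U).mpr hwU
    rwa [(h.fx g hg).2 U hxU] at this
  have hσgw : σ.1 (g.1 w) = g.1 w := hσx _ ⟨U, hxU, hgwU⟩
  -- both images
  have hxσM : ¬ I x (σ.2 M) := by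
    intro hh
    rw [← (h.fx σ hσ).1, h.inc σ hσ] at hh
    exact hM hh
  have hgwσM : ¬ I (g.1 w) (σ.2 M) := by
    intro hh
    exact hUne (h.unique_Ui hxσM hxU ⟨g.1 w, hgwU, hh⟩ hxUi ⟨u, huU, huσM⟩)
  have a1 : I (σ.1 (g.1 y)) (σ.2 M) := by
    rw [h.inc σ hσ]
    have := (h.inc g hg y M).mpr hyM
    rwa [hgM] at this
  have a2 : I (g.1 (σ.1 y)) (σ.2 M) := by
    rw [← hgσM, h.inc g hg, h.inc σ hσ]; exact hyM
  have b1 : I (σ.1 (g.1 y)) (σ.2 (g.2 m)) := by
    rw [h.inc σ hσ, h.inc g hg]; exact hym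
  have b1' : I (g.1 w) (σ.2 (g.2 m)) := by
    have : I (σ.1 (g.1 w)) (σ.2 (g.2 m)) := by
      rw [h.inc σ hσ, h.inc g hg]; exact hwm
    rwa [hσgw] at this
  have b2 : I (g.1 (σ.1 y)) (g.2 (σ.2 m)) := by
    rw [h.inc g hg, h.inc σ hσ]; exact hym
  have b2' : I (g.1 w) (g.2 (σ.2 m)) := by
    rw [h.inc g hg]
    have : I (σ.1 w) (σ.2 m) := by
      rw [h.inc σ hσ]; exact hwm
    rwa [hσw] at this
  have e : σ.1 (g.1 y) = g.1 (σ.1 y) := (h.toGQ.tri hgwσM a1 a2 b1' b1 b2' b2).1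
  -- sharp transitivity
  have hny : ¬ ∃ l : L, I x l ∧ I (σ.1 (g.1 y)) l := by
    rintro ⟨l, hl1, hl2⟩
    apply hy
    refine ⟨l, hl1, ?_⟩
    rw [← (h.fx σ hσ).2 l hl1, h.inc σ hσ, ← (h.fx g hg).2 l hl1, h.inc g hg] at hl2
    exact hl2
  refine (h.sharp y (σ.1 (g.1 y)) hy hny).unique ⟨G.mul_mem hσ hg, ?_⟩ ⟨G.mul_mem hg hσ, ?_⟩
  · rfl
  · exact e.symm

/-- Connectedness: an element commuting with all elations which stabilise a line off `x`
commutes with all elations. -/
theorem comm_all (h : EGQ I s t x G) (ht : 1 < t) (hs : 1 < s)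
    {σ : Equiv.Perm P × Equiv.Perm L}
    (hc : ∀ g ∈ G, ∀ (M : L) (y : P), ¬ I x M → g.2 M = M → I y M → (¬ ∃ l : L, I x l ∧ I y l) →
      σ * g = g * σ)
    {g : Equiv.Perm P × Equiv.Perm L} (hg : g ∈ G) : σ * g = g * σ := by
  -- the relation
  let far : P → Prop := fun p => ¬ ∃ l : L, I x l ∧ I p l
  let rel : P → P → Prop := fun y z => ∃ k ∈ G, σ * k = k * σ ∧ k.1 y = z
  have rel_trans : ∀ a b c : P, rel a b → rel b c → rel a c := by
    rintro a b c ⟨k, hk, hk1, hk2⟩ ⟨k', hk', hk1', hk2'⟩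
    refine ⟨k' * k, G.mul_mem hk' hk, ?_, ?_⟩
    · rw [← mul_assoc, hk1', mul_assoc, hk1, mul_assoc]
    · show k'.1 (k.1 a) = c
      rw [hk2, hk2']
  have adj : ∀ (a b : P) (m : L), far a → far b → I a m → I b m → rel a b := by
    intro a b m ha hb ham hbm
    obtain ⟨k, ⟨hk, hka⟩, -⟩ := h.sharp a b ha hb
    have hxm : ¬ I x m := fun hh => ha ⟨m, hh, ham⟩
    have hkm : k.2 m = m := h.fix_line hk hxm ha ham (by rw [hka]; exact hbm)
    exact ⟨k, hk, hc k hk m a hxm hkm ham ha, hka⟩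
  have all : ∀ a b : P, far a → far b → rel a b := by
    intro a b ha hb
    by_cases hab : ∃ m, I a m ∧ I b m
    · obtain ⟨m, h1, h2⟩ := hab
      exact adj a b m ha hb h1 h2
    -- two lines on b
    have h1 := h.cp b
    have h2 : 1 < (Finset.univ.filter (fun l => I b l)).card := by omega
    obtain ⟨M, hM, M', hM', hMM⟩ := Finset.one_lt_card.mp h2
    simp only [Finset.mem_filter, Finset.mem_univ, true_and] at hM hM'
    have haM : ¬ I a M := fun hh => hab ⟨M, hh, hM⟩
    have haM' : ¬ I a M' := fun hh => hab ⟨M', hh, hM'⟩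
    obtain ⟨z, m, hzM, ham, hzm⟩ := h.toGQ.proj haM
    by_cases hz : far z
    · exact rel_trans a z b (adj a z m ha hz ham hzm) (adj z b M hz hb hzM hM)
    obtain ⟨z', m', hzM', ham', hzm'⟩ := h.toGQ.proj haM'
    by_cases hz' : far z'
    · exact rel_trans a z' b (adj a z' m' ha hz' ham' hzm') (adj z' b M' hz' hb hzM' hM')
    -- both projections are in x^⊥
    simp only [far, not_not] at hz hz'
    obtain ⟨V, hxV, hzV⟩ := hz
    obtain ⟨V', hxV', hzV'⟩ := hz'
    have hxm : ¬ I x m := fun hh => ha ⟨m, hh, ham⟩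
    have hxM' : ¬ I x M' := fun hh => hb ⟨M', hh, hM'⟩
    -- another point c on m
    have h3 := h.cl m
    have h4 : 2 < (Finset.univ.filter (fun p => I p m)).card := by omega
    obtain ⟨c, hcm, hca, hcz⟩ : ∃ c, I c m ∧ c ≠ a ∧ c ≠ z := by
      by_contra hcon
      push Not at hcon
      have : (Finset.univ.filter (fun p => I p m)) ⊆ {a, z} := by
        intro p hp
        simp only [Finset.mem_filter, Finset.mem_univ, true_and] at hp
        simp only [Finset.mem_insert, Finset.mem_singleton]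
        by_cases hpa : p = a
        · left; exact hpa
        · right; exact hcon p hp hpa
      have := (Finset.card_le_card this).trans (Finset.card_le_two)
      omega
    have hcfar : far c := by
      rintro ⟨l, hxl, hcl⟩
      exact hcz ((h.toGQ.tri hxm hcm hzm hxl hcl hxV hzV).1)
    have hcM' : ¬ I c M' := by
      intro hh
      -- b is collinear with c and z on m, b not on m
      have hbm : ¬ I b m := fun h' => hab ⟨m, ham, h'⟩
      exact hcz ((h.toGQ.tri hbm hcm hzm hM' hh hM hzM).1)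
    obtain ⟨d, k, hdM', hck, hdk⟩ := h.toGQ.proj hcM'
    have hdfar : far d := by
      rintro ⟨l, hxl, hdl⟩
      -- d = z'
      have hdz : d = z' := (h.toGQ.tri hxM' hdM' hzM' hxl hdl hxV' hzV').1
      subst hdz
      by_cases hdm : I d m
      · have hdz2 : d = z := (h.toGQ.tri hxm hdm hzm hxl hdl hxV hzV).1
        subst hdz2
        have : d = b := h.toGQ.pt_unique hMM hzM hdM' hM hM'
        subst this
        exact hb ⟨V, hxV, hzV⟩
      · exact hca ((h.toGQ.tri hdm hcm ham hdk hck hzm' ham').1)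
    exact rel_trans a c b (adj a c m ha hcfar ham hcm)
      (rel_trans c d b (adj c d k hcfar hdfar hck hdk) (adj d b M' hdfar hb hdM' hM'))
  -- existence of a far point
  by_cases hfar : ∃ y, far y
  · obtain ⟨y, hy⟩ := hfar
    have hgy : far (g.1 y) := by
      rintro ⟨l, hl1, hl2⟩
      apply hy
      refine ⟨l, hl1, ?_⟩
      rw [← (h.fx g hg).2 l hl1, h.inc g hg] at hl2
      exact hl2
    obtain ⟨k, hk, hk1, hk2⟩ := all y (g.1 y) hy hgy
    have : k = g := (h.sharp y (g.1 y) hy hgy).unique ⟨hk, hk2⟩ ⟨hg, rfl⟩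
    subst this
    exact hk1
  · exfalso
    push Not at hfar
    simp only [far, not_not] at hfar
    -- a line not through x
    have h1 := h.cp x
    have h2 : 1 < (Finset.univ.filter (fun l => I x l)).card := by omega
    obtain ⟨U, hU, U', hU', hUU⟩ := Finset.one_lt_card.mp h2
    simp only [Finset.mem_filter, Finset.mem_univ, true_and] at hU hU'
    have h3 := h.cl U
    have h4 : 1 < (Finset.univ.filter (fun p => I p U)).card := by omega
    obtain ⟨w, hw1, hw2⟩ := Finset.exists_mem_ne h4 x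
    simp only [Finset.mem_filter, Finset.mem_univ, true_and] at hw1
    have h5 := h.cp w
    have h6 : 1 < (Finset.univ.filter (fun l => I w l)).card := by omega
    obtain ⟨K, hK1, hK2⟩ := Finset.exists_mem_ne h6 U
    simp only [Finset.mem_filter, Finset.mem_univ, true_and] at hK1
    have hxK : ¬ I x K := fun hh => hK2 (h.pl x w K U (Ne.symm hw2) hh hK1 hU hw1)
    have h7 := h.cl K
    have h8 : 1 < (Finset.univ.filter (fun p => I p K)).card := by omega
    obtain ⟨y, hy1, hy2⟩ := Finset.exists_mem_ne h8 w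
    simp only [Finset.mem_filter, Finset.mem_univ, true_and] at hy1
    obtain ⟨l, hl1, hl2⟩ := hfar y
    exact hy2 ((h.toGQ.tri hxK hy1 hK1 hl1 hl2 hU hw1).1)

end EGQ

end Pool.Agent.Helper298
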