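import Pool.Agent.Helper298_GQ.Triple

set_option autoImplicit false
open scoped Classical

/-! In an elation quadrangle of order `(t²,t)` a nontrivial elation which fixes a line not through
the elation point fixes all lines through the projection of the elation point on that line. -/

namespace Pool.Agent.Helper298

/-- A finite elation generalized quadrangle of order `(s,t)`. -/
structure EGQ {P L : Type*} [Fintype P] [Fintype L] (I : P → L → Prop) (s t : ℕ) (x : P)
    (G : Subgroup (Equiv.Perm P × Equiv.Perm L)) : Prop extends GQ I s t where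
  inc : ∀ g ∈ G, ∀ (p : P) (l : L), I (g.1 p) (g.2 l) ↔ I p l
  fx : ∀ g ∈ G, g.1 x = x ∧ ∀ l : L, I x l → g.2 l = l
  sharp : ∀ p q : P, (¬ ∃ l : L, I x l ∧ I p l) → (¬ ∃ l : L, I x l ∧ I q l) →
      ∃! g : Equiv.Perm P × Equiv.Perm L, g ∈ G ∧ g.1 p = q

variable {P L : Type*} [Fintype P] [Fintype L] {I : P → L → Prop} {s t : ℕ} {x : P}
  {G : Subgroup (Equiv.Perm P × Equiv.Perm L)}

namespace EGQ

theorem meets_map (h : EGQ I s t x G) {g : Equiv.Perm P × Equiv.Perm L} (hg : g ∈ G) (a b : L) :
    meets I (g.2 a) (g.2 b) ↔ meets I a b := by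
  constructor
  · rintro ⟨p, h1, h2⟩
    refine ⟨g.1.symm p, ?_, ?_⟩
    · rw [← h.inc g hg]; simpa using h1
    · rw [← h.inc g hg]; simpa using h2
  · rintro ⟨p, h1, h2⟩
    exact ⟨g.1 p, (h.inc g hg p a).mpr h1, (h.inc g hg p b).mpr h2⟩

theorem eq_one (h : EGQ I s t x G) {g : Equiv.Perm P × Equiv.Perm L} (hg : g ∈ G) {p : P}
    (hp : ¬ ∃ l : L, I x l ∧ I p l) (hgp : g.1 p = p) : g = 1 :=
  (h.sharp p p hp hp).unique ⟨hg, hgp⟩ ⟨G.one_mem, rfl⟩

/-- the line through `x` meeting a line not through `x` is unique -/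
theorem unique_Ui (h : EGQ I s t x G) {K U U' : L} (hK : ¬ I x K) (h1 : I x U) (h2 : meets I U K)
    (h3 : I x U') (h4 : meets I U' K) : U = U' :=
  h.toGQ.dproj_unique hK h1 h2 h3 h4

theorem fix_u0 (h : EGQ I s t x G) {g : Equiv.Perm P × Equiv.Perm L} (hg : g ∈ G) {K Ui : L} {u : P}
    (hK : ¬ I x K) (hgK : g.2 K = K) (hxU : I x Ui) (huU : I u Ui) (huK : I u K) :
    g.1 u = u := by
  have h1 : I (g.1 u) K := by rw [← hgK, h.inc g hg]; exact huK
  have h2 : I (g.1 u) Ui := by rw [← (h.fx g hg).2 Ui hxU, h.inc g hg]; exact huU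
  have hne : K ≠ Ui := by rintro rfl; exact hK hxU
  exact h.toGQ.pt_unique hne h1 h2 huK huU

theorem moved (h : EGQ I s t x G) {g : Equiv.Perm P × Equiv.Perm L} (hg : g ∈ G) (hg1 : g ≠ 1)
    {K Ui : L} {u : P}
    (hK : ¬ I x K) (hgK : g.2 K = K) (hxU : I x Ui) (huU : I u Ui) (huK : I u K)
    {V : L} (hxV : I x V) (hV : V ≠ Ui) {w : P} (hw : I w V) (hwx : w ≠ x) : g.1 w ≠ w := by
  intro hfix
  have hVK : ¬ meets I V K := fun hm => hV (h.unique_Ui hK hxV hm hxU ⟨u, huU, huK⟩)
  have hwK : ¬ I w K := fun hh => hVK ⟨w, hw, hh⟩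
  obtain ⟨z, m, hzK, hwm, hzm⟩ := h.toGQ.proj hwK
  -- z is fixed
  have hz : g.1 z = z := by
    have h1 : I (g.1 z) K := by rw [← hgK, h.inc g hg]; exact hzK
    have h2 : I (g.1 z) (g.2 m) := (h.inc g hg _ _).mpr hzm
    have h3 : I w (g.2 m) := by
      have := (h.inc g hg w m).mpr hwm
      rwa [hfix] at this
    exact (h.toGQ.tri hwK h1 hzK h3 h2 hwm hzm).1
  apply hg1
  refine h.eq_one hg (p := z) ?_ hz
  rintro ⟨l, hxl, hzl⟩
  have hlUi : l = Ui := h.unique_Ui hK hxl ⟨z, hzl, hzK⟩ hxU ⟨u, huU, huK⟩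
  subst hlUi
  have hzu : z = u := h.toGQ.pt_unique (by rintro rfl; exact hK hxl) hzl hzK huU huK
  subst hzu
  -- w ~ z on l, w ~ x on l
  have hwl : ¬ I w l := by
    intro hwl
    exact hwx (h.toGQ.pt_unique hV hw hwl hxV hxl)
  have := (h.toGQ.tri hwl hzl hxl hwm hzm hw hxV).1
  subst this
  exact hK huK

theorem disj_moved (h : EGQ I s t x G) {g : Equiv.Perm P × Equiv.Perm L} (hg : g ∈ G) (hg1 : g ≠ 1)
    {K Ui : L} {u : P}
    (hK : ¬ I x K) (hgK : g.2 K = K) (hxU : I x Ui) (huU : I u Ui) (huK : I u K)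
    {V T : L} (hxV : I x V) (hV : V ≠ Ui) (hT : ¬ I x T) (hm : meets I T V) :
    ¬ meets I T (g.2 T) := by
  obtain ⟨w, hwT, hwV⟩ := hm
  have hwx : w ≠ x := by rintro rfl; exact hT hwT
  have hmv := h.moved hg hg1 hK hgK hxU huU huK hxV hV hwV hwx
  have hgT : ¬ I x (g.2 T) := by
    intro hh
    rw [← (h.fx g hg).1, h.inc g hg] at hh
    exact hT hh
  have hgwT : I (g.1 w) (g.2 T) := (h.inc g hg _ _).mpr hwT
  have hgwV : I (g.1 w) V := by rw [← (h.fx g hg).2 V hxV, h.inc g hg]; exact hwV
  rintro ⟨z, hz1, hz2⟩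
  by_cases hzV : I z V
  · have e1 : z = w := h.toGQ.pt_unique (by rintro rfl; exact hT hxV) hz1 hzV hwT hwV
    have e2 : z = g.1 w := h.toGQ.pt_unique (l := g.2 T) (m := V)
      (by rintro e; rw [e] at hgT; exact hgT hxV) hz2 hzV hgwT hgwV
    exact hmv (by rw [← e2, e1])
  · exact hmv ((h.toGQ.tri hzV hwV hgwV hz1 hwT hz2 hgwT).1.symm)

/-- lines off `x` meeting `U` (through `x`) and `V` (not through `x`, disjoint from `U`) -/
theorem countC1 (h : EGQ I s t x G) {V Ui U : L} (hV : ¬ I x V) (hxUi : I x Ui)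
    (hm : meets I Ui V) (hxU : I x U) (hne : U ≠ Ui) :
    (Finset.univ.filter (fun M => (¬ I x M ∧ meets I M U) ∧ meets I M V)).card = s := by
  have hd : ¬ meets I U V := fun hh => hne (h.unique_Ui hV hxU hh hxUi hm)
  have a1 := h.toGQ.card_trans hd
  have : (Finset.univ.filter (fun M => meets I M U ∧ meets I M V))
      = insert Ui (Finset.univ.filter (fun M => (¬ I x M ∧ meets I M U) ∧ meets I M V)) := by
    ext M
    simp only [Finset.mem_filter, Finset.mem_univ, true_and, Finset.mem_insert]
    constructor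
    · rintro ⟨b1, b2⟩
      by_cases hx : I x M
      · left; exact h.unique_Ui hV hx b2 hxUi hm
      · right; exact ⟨⟨hx, b1⟩, b2⟩
    · rintro (rfl | ⟨⟨_, b1⟩, b2⟩)
      · exact ⟨⟨x, hxUi, hxU⟩, hm⟩
      · exact ⟨b1, b2⟩
  rw [this, Finset.card_insert_of_notMem (by simp [hxUi])] at a1
  omega

theorem countC2 (h : EGQ I s t x G) {U : L} (hxU : I x U) :
    (Finset.univ.filter (fun M => ¬ I x M ∧ meets I M U)).card = s * t := by
  have a1 := h.toGQ.card_meet U
  have a2 := h.cp x
  have b1 : (Finset.univ.filter (fun N => meets I N U)).card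
      = (Finset.univ.filter (fun M => ¬ I x M ∧ meets I M U)).card
        + (Finset.univ.filter (fun l => I x l)).card := by
    rw [← Finset.card_filter_add_card_filter_not (s := Finset.univ.filter (fun N => meets I N U))
        (fun N => ¬ I x N)]
    congr 1
    · congr 1
      ext N; simp; tauto
    · congr 1
      ext N
      simp only [Finset.mem_filter, Finset.mem_univ, true_and, not_not]
      exact ⟨fun hh => hh.2, fun hh => ⟨⟨x, hh, hxU⟩, hh⟩⟩
  rw [a1, a2] at b1
  nlinarith

/-- **Key counting lemma.** -/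
theorem fix_all (h : EGQ I s t x G) (ht : 1 < t) (hst : s = t ^ 2)
    {g : Equiv.Perm P × Equiv.Perm L} (hg : g ∈ G)
    {K Ui : L} {u : P}
    (hK : ¬ I x K) (hgK : g.2 K = K) (hxUi : I x Ui) (huU : I u Ui) (huK : I u K)
    {T : L} (hT : I u T) : g.2 T = T := by
  by_cases hg1 : g = 1
  · subst hg1; rfl
  have hgu : g.1 u = u := h.fix_u0 hg hK hgK hxUi huU huK
  have hux : u ≠ x := by rintro rfl; exact hK huK
  have hginv : g⁻¹ ∈ G := G.inv_mem hg
  have hginv1 : g⁻¹ ≠ 1 := by simpa using hg1
  have hii : ∀ l : L, g.2 ((g⁻¹).2 l) = l := by intro l; simp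
  have hii' : ∀ l : L, (g⁻¹).2 (g.2 l) = l := by intro l; simp
  have hginvK : (g⁻¹).2 K = K := by
    have := hii' K
    rwa [hgK] at this
  have hm_iff : ∀ a b : L, meets I a (g.2 b) ↔ meets I ((g⁻¹).2 a) b := by
    intro a b
    have := h.meets_map hg ((g⁻¹).2 a) b
    rwa [hii] at this
  -- another line through x
  obtain ⟨U, hU⟩ : ∃ U, I x U ∧ U ≠ Ui := by
    have h1 := h.cp x
    have h2 : 1 < (Finset.univ.filter (fun l => I x l)).card := by omega
    obtain ⟨U, hU1, hU2⟩ := Finset.exists_mem_ne h2 Ui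
    exact ⟨U, by simpa using hU1, hU2⟩
  obtain ⟨hxU, hUne⟩ := hU
  have hUK : ¬ meets I U K := fun hh => hUne (h.unique_Ui hK hxU hh hxUi ⟨u, huU, huK⟩)
  have hgU : g.2 U = U := (h.fx g hg).2 U hxU
  have hginvU : (g⁻¹).2 U = U := (h.fx _ hginv).2 U hxU
  set Om : Finset L := Finset.univ.filter (fun M => ¬ I x M ∧ meets I M U) with hOm
  set Th : Finset L := Finset.univ.filter (fun T => T ≠ K ∧ meets I T K) with hTh
  have key := GQ.dc Om Th (fun M T => meets I T M ∧ meets I T (g.2 M))
  -- left side
  have left : ∀ M ∈ Om, (Th.filter (fun T => meets I T M ∧ meets I T (g.2 M))).card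
      = if ¬ meets I M K then t + 1 else 0 := by
    intro M hM
    simp only [hOm, Finset.mem_filter, Finset.mem_univ, true_and] at hM
    obtain ⟨hMx, hMU⟩ := hM
    have hdis : ¬ meets I M (g.2 M) :=
      h.disj_moved hg hg1 hK hgK hxUi huU huK hxU hUne hMx hMU
    by_cases hMK : meets I M K
    · rw [if_neg (by simpa using hMK), Finset.card_eq_zero, Finset.filter_eq_empty_iff]
      intro T hT
      simp only [hTh, Finset.mem_filter, Finset.mem_univ, true_and] at hT
      rintro ⟨c1, c2⟩
      have hKgM : meets I K (g.2 M) := by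
        rw [meets_comm, ← hgK, h.meets_map hg]; exact hMK
      exact h.toGQ.trans_disj hdis hT.1 c1 c2 (meets_comm.mp hMK) hKgM hT.2
    · rw [if_pos hMK]
      have hKM : ¬ meets I K M := fun hh => hMK (meets_comm.mp hh)
      have hgMK : ¬ meets I (g.2 M) K := by
        intro hh
        rw [← hgK, h.meets_map hg] at hh
        exact hMK hh
      have := h.toGQ.triple hst hKM hgMK (fun hh => hdis (meets_comm.mp hh))
      rw [← this]
      congr 1
      ext T
      simp only [hTh, Finset.mem_filter, Finset.mem_univ, true_and]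
      constructor
      · rintro ⟨⟨_, c1⟩, c2, c3⟩
        exact ⟨⟨c1, c2⟩, c3⟩
      · rintro ⟨⟨c1, c2⟩, c3⟩
        refine ⟨⟨?_, c1⟩, c2, c3⟩
        rintro rfl
        exact hKM c2
  -- right side
  have right : ∀ T ∈ Th, (Om.filter (fun M => meets I T M ∧ meets I T (g.2 M))).card
      = (if I u T ∧ ¬ I x T ∧ g.2 T = T then s else 0)
        + (if ¬ I u T ∧ ¬ meets I T U then t else 0) := by
    intro T hT
    simp only [hTh, Finset.mem_filter, Finset.mem_univ, true_and] at hT
    obtain ⟨hTK, hmTK⟩ := hT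
    by_cases hxT : I x T
    · -- T = Ui
      have hTUi : T = Ui := h.unique_Ui hK hxT hmTK hxUi ⟨u, huU, huK⟩
      subst hTUi
      rw [if_neg (by simp [hxT]), if_neg (by simp [huU]), Finset.card_eq_zero,
        Finset.filter_eq_empty_iff]
      intro M hM
      simp only [hOm, Finset.mem_filter, Finset.mem_univ, true_and] at hM
      rintro ⟨c1, _⟩
      exact hM.1 (h.toGQ.through_of_meets hUne hxU hxT hM.2 (meets_comm.mp c1))
    by_cases huT : I u T
    · rw [if_neg (c := ¬ I u T ∧ ¬ meets I T U) (by simp [huT]), add_zero]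
      by_cases hgT : g.2 T = T
      · rw [if_pos ⟨huT, hxT, hgT⟩]
        have := h.countC1 hxT hxUi ⟨u, huU, huT⟩ hxU hUne
        rw [← this, hOm, Finset.filter_filter]
        congr 1
        ext M
        simp only [Finset.mem_filter, Finset.mem_univ, true_and]
        constructor
        · rintro ⟨c1, c2, _⟩
          exact ⟨c1, meets_comm.mp c2⟩
        · rintro ⟨c1, c2⟩
          refine ⟨c1, meets_comm.mp c2, ?_⟩
          rw [← hgT, h.meets_map hg]
          exact meets_comm.mp c2
      · rw [if_neg (by simp [hgT]), Finset.card_eq_zero, Finset.filter_eq_empty_iff]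
        intro M hM
        simp only [hOm, Finset.mem_filter, Finset.mem_univ, true_and] at hM
        rintro ⟨c1, c2⟩
        rw [hm_iff] at c2
        have hne : T ≠ (g⁻¹).2 T := by
          intro e
          apply hgT
          nth_rewrite 1 [e]
          exact hii T
        have hu2 : I u ((g⁻¹).2 T) := by
          rw [← h.inc g hg, hgu, hii]; exact huT
        have huM : I u M := h.toGQ.through_of_meets hne huT hu2 (meets_comm.mp c1)
          (meets_comm.mp c2)
        have huUn : ¬ I u U := fun hh => hUK ⟨u, hh, huK⟩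
        obtain ⟨w, hwM, hwU⟩ := hM.2
        have := (h.toGQ.tri huUn hwU hxU huM hwM huU hxUi).1
        subst this
        exact hM.1 hwM
    · rw [if_neg (by simp [huT]), zero_add]
      -- T does not meet Ui
      have hTUi : ¬ meets I T Ui := by
        intro hm
        exact huT (h.toGQ.through_of_meets (by rintro rfl; exact hK hxUi) huK huU hmTK hm)
      by_cases hTU : meets I T U
      · rw [if_neg (by simp [hTU]), Finset.card_eq_zero, Finset.filter_eq_empty_iff]
        intro M hM
        simp only [hOm, Finset.mem_filter, Finset.mem_univ, true_and] at hM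
        rintro ⟨c1, c2⟩
        obtain ⟨w, hwT, hwU⟩ := hTU
        have hTne : T ≠ U := by rintro rfl; exact hxT hxU
        have hwM : I w M := h.toGQ.through_of_meets hTne hwT hwU (meets_comm.mp c1) hM.2
        have hgMU : meets I (g.2 M) U := by
          rw [← hgU, h.meets_map hg]; exact hM.2
        have hwgM : I w (g.2 M) := h.toGQ.through_of_meets hTne hwT hwU (meets_comm.mp c2) hgMU
        have hwx : w ≠ x := by rintro rfl; exact hxT hwT
        have hmv := h.moved hg hg1 hK hgK hxUi huU huK hxU hUne hwU hwx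
        have hgw : I (g.1 w) (g.2 M) := (h.inc g hg _ _).mpr hwM
        have hgwU : I (g.1 w) U := by rw [← hgU, h.inc g hg]; exact hwU
        have e := h.pl _ _ _ _ hmv hgw hwgM hgwU hwU
        have e2 : M = U := by
          have := congrArg (g⁻¹).2 e
          rwa [hii', hginvU] at this
        rw [e2] at hM
        exact hM.1 hxU
      · rw [if_pos ⟨huT, hTU⟩]
        obtain ⟨Uk, hxUk, hUkT⟩ := h.toGQ.dproj hxT
        have hUkne : Uk ≠ Ui := by rintro rfl; exact hTUi (meets_comm.mp hUkT)
        have d1 : ¬ meets I U T := fun hh => hTU (meets_comm.mp hh)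
        have d2 : ¬ meets I ((g⁻¹).2 T) U := by
          rw [← hginvU, h.meets_map hginv]; exact hTU
        have d3 : ¬ meets I ((g⁻¹).2 T) T := by
          intro hh
          exact h.disj_moved hginv hginv1 hK hginvK hxUi huU huK hxUk hUkne hxT
            (meets_comm.mp hUkT) (meets_comm.mp hh)
        have tr := h.toGQ.triple hst d1 d2 d3
        have hset : (Finset.univ.filter (fun M => (meets I M U ∧ meets I M T) ∧
              meets I M ((g⁻¹).2 T)))
            = insert Uk (Om.filter (fun M => meets I T M ∧ meets I T (g.2 M))) := by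
          ext M
          simp only [hOm, Finset.mem_filter, Finset.mem_univ, true_and, Finset.mem_insert]
          constructor
          · rintro ⟨⟨c1, c2⟩, c3⟩
            by_cases hxM : I x M
            · left; exact h.unique_Ui hxT hxM c2 hxUk hUkT
            · right
              refine ⟨⟨hxM, c1⟩, meets_comm.mp c2, ?_⟩
              rw [hm_iff]; exact meets_comm.mp c3
          · rintro (rfl | ⟨⟨_, c1⟩, c2, c3⟩)
            · refine ⟨⟨⟨x, hxUk, hxU⟩, hUkT⟩, ?_⟩
              rw [← (h.fx _ hginv).2 M hxUk, h.meets_map hginv]; exact hUkT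
            · rw [hm_iff] at c3
              exact ⟨⟨c1, meets_comm.mp c2⟩, meets_comm.mp c3⟩
        rw [hset, Finset.card_insert_of_notMem (by simp [hOm, hxUk])] at tr
        omega
  rw [Finset.sum_congr rfl left, Finset.sum_congr rfl right, Finset.sum_add_distrib,
    ← Finset.sum_filter, ← Finset.sum_filter, ← Finset.sum_filter, Finset.sum_const,
    Finset.sum_const, Finset.sum_const] at key
  -- counts
  have cOm : (Om.filter (fun M => ¬ meets I M K)).card = s * t - s := by
    have a1 := h.countC2 hxU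
    have a2 := h.countC1 hK hxUi ⟨u, huU, huK⟩ hxU hUne
    have b1 := Finset.card_filter_add_card_filter_not (s := Om) (fun M => meets I M K)
    have b2 : (Om.filter (fun M => meets I M K)).card = s := by
      rw [hOm, Finset.filter_filter, a2]
    rw [b2] at b1
    rw [← hOm] at a1
    omega
  have cTh : (Th.filter (fun T => ¬ I u T ∧ ¬ meets I T U)).card = s * t - s := by
    have a1 := h.toGQ.card_meet K
    have a2 : Th = (Finset.univ.filter (fun N => meets I N K)).erase K := by
      ext N
      simp only [hTh, Finset.mem_filter, Finset.mem_univ, true_and, Finset.mem_erase]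
    have a3 : Th.card = (s + 1) * t := by
      rw [a2, Finset.card_erase_of_mem (by simpa using h.toGQ.meets_self K), a1]; omega
    have b1 := Finset.card_filter_add_card_filter_not (s := Th) (fun T => I u T)
    have b2 : (Th.filter (fun T => I u T)).card = t := by
      have : Th.filter (fun T => I u T) = (Finset.univ.filter (fun T => I u T)).erase K := by
        ext N
        simp only [hTh, Finset.mem_filter, Finset.mem_univ, true_and, Finset.mem_erase]
        constructor
        · rintro ⟨⟨c1, _⟩, c2⟩; exact ⟨c1, c2⟩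
        · rintro ⟨c1, c2⟩; exact ⟨⟨c1, ⟨u, c2, huK⟩⟩, c2⟩
      rw [this, Finset.card_erase_of_mem (by simpa using huK), h.cp u]; simp
    have b3 := Finset.card_filter_add_card_filter_not (s := Th.filter (fun T => ¬ I u T))
      (fun T => meets I T U)
    have b4 : ((Th.filter (fun T => ¬ I u T)).filter (fun T => meets I T U)).card = s := by
      have huUn : ¬ I u U := fun hh => hUK ⟨u, hh, huK⟩
      have c1 := h.toGQ.card_trans (K := K) (M := U) (fun hh => hUK (meets_comm.mp hh))
      have c2 : (Finset.univ.filter (fun N => meets I N K ∧ meets I N U))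
          = insert Ui ((Th.filter (fun T => ¬ I u T)).filter (fun T => meets I T U)) := by
        ext N
        simp only [hTh, Finset.mem_filter, Finset.mem_univ, true_and, Finset.mem_insert]
        constructor
        · rintro ⟨d1, d2⟩
          by_cases huN : I u N
          · left
            exact h.toGQ.dproj_unique huUn huN d2 huU ⟨x, hxUi, hxU⟩
          · right
            refine ⟨⟨⟨?_, d1⟩, huN⟩, d2⟩
            rintro rfl
            exact huN huK
        · rintro (rfl | ⟨⟨⟨_, d1⟩, _⟩, d2⟩)
          · exact ⟨⟨u, huU, huK⟩, ⟨x, hxUi, hxU⟩⟩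
          · exact ⟨d1, d2⟩
      rw [c2, Finset.card_insert_of_notMem (by simp [huU])] at c1
      omega
    have b5 : (Th.filter (fun T => ¬ I u T ∧ ¬ meets I T U))
        = ((Th.filter (fun T => ¬ I u T)).filter (fun T => ¬ meets I T U)) := by
      ext N
      simp only [Finset.mem_filter]
      tauto
    rw [b5]
    rw [a3, b2] at b1
    rw [b4] at b3
    have : (s + 1) * t = s * t + t := by ring
    omega
  rw [cOm, cTh] at key
  simp only [smul_eq_mul] at key
  have hspos : 0 < s := by rw [hst]; positivity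
  have hc1 : (Th.filter (fun T => I u T ∧ ¬ I x T ∧ g.2 T = T)).card = t - 1 := by
    have e1 : s * t - s = s * (t - 1) := by
      rw [Nat.mul_sub, mul_one]
    rw [e1] at key
    have e2 : (s * (t - 1)) * (t + 1) = s * ((t - 1) * (t + 1)) := by ring
    have e3 : (Th.filter (fun T => I u T ∧ ¬ I x T ∧ g.2 T = T)).card * s + s * (t - 1) * t
        = s * ((Th.filter (fun T => I u T ∧ ¬ I x T ∧ g.2 T = T)).card + (t - 1) * t) := by ring
    rw [e2, e3] at key
    have := Nat.eq_of_mul_eq_mul_left hspos key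
    have e4 : (t - 1) * (t + 1) = (t - 1) + (t - 1) * t := by ring
    omega
  -- total number of lines on u not on x and different from K
  have htot : (Th.filter (fun T => I u T ∧ ¬ I x T)).card = t - 1 := by
    have : Th.filter (fun T => I u T ∧ ¬ I x T)
        = ((Finset.univ.filter (fun T => I u T)).erase K).erase Ui := by
      ext N
      simp only [hTh, Finset.mem_filter, Finset.mem_univ, true_and, Finset.mem_erase]
      constructor
      · rintro ⟨⟨c1, c2⟩, c3, c4⟩
        refine ⟨?_, c1, c3⟩
        rintro rfl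
        exact c4 hxUi
      · rintro ⟨c1, c2, c3⟩
        refine ⟨⟨c2, ⟨u, c3, huK⟩⟩, c3, ?_⟩
        intro hxN
        exact c1 (h.pl u x N Ui hux c3 hxN huU hxUi)
    rw [this, Finset.card_erase_of_mem, Finset.card_erase_of_mem (by simpa using huK), h.cp u]
    · omega
    · simp only [Finset.mem_erase, Finset.mem_filter, Finset.mem_univ, true_and]
      exact ⟨by rintro rfl; exact hK hxUi, huU⟩
  have hsub : Th.filter (fun T => I u T ∧ ¬ I x T ∧ g.2 T = T)
      ⊆ Th.filter (fun T => I u T ∧ ¬ I x T) := by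
    intro N hN
    simp only [Finset.mem_filter] at hN ⊢
    exact ⟨hN.1, hN.2.1, hN.2.2.1⟩
  have heq := Finset.eq_of_subset_of_card_le hsub (by rw [hc1, htot])
  by_cases hTK : T = K
  · subst hTK; exact hgK
  by_cases hxT : I x T
  · exact (h.fx g hg).2 T hxT
  have hmem : T ∈ Th.filter (fun T => I u T ∧ ¬ I x T) := by
    simp only [hTh, Finset.mem_filter, Finset.mem_univ, true_and]
    exact ⟨⟨hTK, ⟨u, hT, huK⟩⟩, hT, hxT⟩
  rw [← heq] at hmem
  simp only [Finset.mem_filter] at hmem
  exact hmem.2.2.2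

end EGQ

end Pool.Agent.Helper298
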