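import Pool.Agent.Helper298_GQ.Basic

set_option autoImplicit false
open scoped Classical

/-! In a generalized quadrangle of order `(t²,t)` three pairwise disjoint lines have `t+1` transversals. -/

namespace Pool.Agent.Helper298

variable {P L : Type*} [Fintype P] [Fintype L] {I : P → L → Prop} {s t : ℕ}

namespace GQ

/-- lines disjoint from two disjoint lines -/
theorem card_disj2 (h : GQ I s t) {K M : L} (hKM : ¬ meets I K M) :
    ((Finset.univ.filter (fun N => ¬ meets I N K ∧ ¬ meets I N M)).card : ℤ)
      = s * t * t - s * t + s - t := by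
  have a1 := h.card_disj K
  have a2 := h.card_meet M
  have a3 := h.card_trans hKM
  have b1 : (Finset.univ.filter (fun N => ¬ meets I N K)).card
      = (Finset.univ.filter (fun N => ¬ meets I N K ∧ ¬ meets I N M)).card
        + (Finset.univ.filter (fun N => ¬ meets I N K ∧ meets I N M)).card := by
    rw [← Finset.card_filter_add_card_filter_not (s := Finset.univ.filter (fun N => ¬ meets I N K))
        (fun N => ¬ meets I N M)]
    congr 1
    · congr 1
      ext N; simp
    · congr 1
      ext N; simp
  have b2 : (Finset.univ.filter (fun N => meets I N M)).card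
      = (Finset.univ.filter (fun N => meets I N K ∧ meets I N M)).card
        + (Finset.univ.filter (fun N => ¬ meets I N K ∧ meets I N M)).card := by
    rw [← Finset.card_filter_add_card_filter_not (s := Finset.univ.filter (fun N => meets I N M))
        (fun N => meets I N K)]
    congr 1
    · congr 1
      ext N; simp; tauto
    · congr 1
      ext N; simp; tauto
  rw [a1] at b1
  rw [a2, a3] at b2
  zify at b1 b2
  linarith

/-- lines meeting a transversal, disjoint from the two given lines -/
theorem card_off (h : GQ I s t) {K M T : L} (hKM : ¬ meets I K M) (h1 : meets I T K)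
    (h2 : meets I T M) :
    ((Finset.univ.filter (fun N => (¬ meets I N K ∧ ¬ meets I N M) ∧ meets I N T)).card : ℤ)
      = (s - 1) * t := by
  have hTK : T ≠ K := by rintro rfl; exact hKM h2
  have hTM : T ≠ M := by rintro rfl; exact hKM (meets_comm.mp h1)
  obtain ⟨u, hu1, hu2⟩ := h1
  obtain ⟨v, hv1, hv2⟩ := h2
  have huv : u ≠ v := by rintro rfl; exact hKM ⟨u, hu2, hv2⟩
  have a1 := h.card_meet T
  have a2 := h.inter_meet hTK hu1 hu2
  have a3 := h.inter_meet hTM hv1 hv2
  -- lines meeting T and K and M: only T
  have a4 : (Finset.univ.filter (fun N => meets I N T ∧ meets I N K ∧ meets I N M)).card = 1 := by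
    rw [Finset.card_eq_one]
    refine ⟨T, ?_⟩
    ext N
    simp only [Finset.mem_filter, Finset.mem_univ, true_and, Finset.mem_singleton]
    constructor
    · rintro ⟨b1, b2, b3⟩
      have c1 := h.through_of_meets hTK hu1 hu2 b1 b2
      have c2 := h.through_of_meets hTM hv1 hv2 b1 b3
      exact h.pl u v N T huv c1 c2 hu1 hv1
    · rintro rfl
      exact ⟨h.meets_self _, ⟨u, hu1, hu2⟩, ⟨v, hv1, hv2⟩⟩
  have b1 : (Finset.univ.filter (fun N => meets I N T)).card
      = (Finset.univ.filter (fun N => meets I N T ∧ meets I N K)).card
        + (Finset.univ.filter (fun N => meets I N T ∧ ¬ meets I N K)).card := by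
    rw [← Finset.card_filter_add_card_filter_not (s := Finset.univ.filter (fun N => meets I N T))
        (fun N => meets I N K)]
    congr 1
    · congr 1
      ext N; simp
    · congr 1
      ext N; simp
  have b2 : (Finset.univ.filter (fun N => meets I N T ∧ ¬ meets I N K)).card
      = (Finset.univ.filter (fun N => (¬ meets I N K ∧ ¬ meets I N M) ∧ meets I N T)).card
        + (Finset.univ.filter (fun N => meets I N T ∧ ¬ meets I N K ∧ meets I N M)).card := by
    rw [← Finset.card_filter_add_card_filter_not
        (s := Finset.univ.filter (fun N => meets I N T ∧ ¬ meets I N K))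
        (fun N => ¬ meets I N M)]
    congr 1
    · congr 1
      ext N; simp; tauto
    · congr 1
      ext N; simp; tauto
  have b3 : (Finset.univ.filter (fun N => meets I N T ∧ meets I N M)).card
      = (Finset.univ.filter (fun N => meets I N T ∧ meets I N K ∧ meets I N M)).card
        + (Finset.univ.filter (fun N => meets I N T ∧ ¬ meets I N K ∧ meets I N M)).card := by
    rw [← Finset.card_filter_add_card_filter_not
        (s := Finset.univ.filter (fun N => meets I N T ∧ meets I N M))
        (fun N => meets I N K)]
    congr 1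
    · congr 1
      ext N; simp; tauto
    · congr 1
      ext N; simp; tauto
  rw [a1, a2] at b1
  rw [a3, a4] at b3
  zify at b1 b2 b3
  linarith

/-- lines meeting two transversals, disjoint from the two given lines -/
theorem card_off2 (h : GQ I s t) {K M T T' : L} (hKM : ¬ meets I K M) (hTT : T ≠ T')
    (h1 : meets I T K) (h2 : meets I T M) (h3 : meets I T' K) (h4 : meets I T' M) :
    ((Finset.univ.filter (fun N => (¬ meets I N K ∧ ¬ meets I N M) ∧ meets I N T ∧
      meets I N T')).card : ℤ) = s - 1 := by
  have hd := h.trans_disj hKM hTT h1 h2 h3 h4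
  have a1 := h.card_trans hd
  have hKM' : K ≠ M := by rintro rfl; exact hKM (h.meets_self _)
  have a2 : (Finset.univ.filter (fun N => meets I N T ∧ meets I N T'))
      = (Finset.univ.filter (fun N => (¬ meets I N K ∧ ¬ meets I N M) ∧ meets I N T ∧
        meets I N T')) ∪ {K, M} := by
    ext N
    simp only [Finset.mem_filter, Finset.mem_univ, true_and, Finset.mem_union,
      Finset.mem_insert, Finset.mem_singleton]
    constructor
    · rintro ⟨b1, b2⟩
      by_cases c1 : N = K
      · right; left; exact c1
      by_cases c2 : N = M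
      · right; right; exact c2
      left
      refine ⟨⟨?_, ?_⟩, b1, b2⟩
      · exact h.trans_disj hd c1 b1 b2 (meets_comm.mp h1) (meets_comm.mp h3)
      · exact h.trans_disj hd c2 b1 b2 (meets_comm.mp h2) (meets_comm.mp h4)
    · rintro (⟨_, b1, b2⟩ | rfl | rfl)
      · exact ⟨b1, b2⟩
      · exact ⟨meets_comm.mp h1, meets_comm.mp h3⟩
      · exact ⟨meets_comm.mp h2, meets_comm.mp h4⟩
  rw [a2, Finset.card_union_of_disjoint, Finset.card_pair hKM'] at a1
  · zify at a1
    linarith
  · rw [Finset.disjoint_right]
    intro N hN
    simp only [Finset.mem_insert, Finset.mem_singleton] at hN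
    simp only [Finset.mem_filter, Finset.mem_univ, true_and, not_and]
    rintro ⟨c1, c2⟩
    rcases hN with rfl | rfl
    · exact absurd (h.meets_self _) c1
    · exact absurd (h.meets_self _) c2

/-- In order `(t²,t)`, three pairwise disjoint lines have exactly `t+1` transversals. -/
theorem triple (h : GQ I s t) (hst : s = t ^ 2) {K M N : L} (hKM : ¬ meets I K M)
    (hNK : ¬ meets I N K) (hNM : ¬ meets I N M) :
    (Finset.univ.filter (fun T => (meets I T K ∧ meets I T M) ∧ meets I T N)).card = t + 1 := by
  set X : Finset L := Finset.univ.filter (fun N => ¬ meets I N K ∧ ¬ meets I N M) with hX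
  set R : Finset L := Finset.univ.filter (fun T => meets I T K ∧ meets I T M) with hR
  have hRc : R.card = s + 1 := h.card_trans hKM
  have hXc : (X.card : ℤ) = s * t * t - s * t + s - t := h.card_disj2 hKM
  -- first moment
  have m1 : ∑ N ∈ X, ((R.filter (fun T => meets I N T)).card : ℤ) = (s + 1) * ((s - 1) * t) := by
    have e := dc X R (fun N T => meets I N T)
    have e' : ∑ N ∈ X, ((R.filter (fun T => meets I N T)).card : ℤ)
        = ∑ T ∈ R, ((X.filter (fun N => meets I N T)).card : ℤ) := by exact_mod_cast e
    rw [e', Finset.sum_congr rfl (g := fun _ => ((s : ℤ) - 1) * t)]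
    · rw [Finset.sum_const, hRc]; simp
    · intro T hT
      simp only [hR, Finset.mem_filter, Finset.mem_univ, true_and] at hT
      rw [← h.card_off hKM hT.1 hT.2, hX, Finset.filter_filter]
  -- second moment
  have m2 : ∑ N ∈ X, ((R.filter (fun T => meets I N T)).card : ℤ) ^ 2
      = (s + 1) * ((s - 1) * t + s * (s - 1)) := by
    have e := dc X (R ×ˢ R) (fun N T => meets I N T.1 ∧ meets I N T.2)
    have e' : ∑ N ∈ X, (((R ×ˢ R).filter (fun T => meets I N T.1 ∧ meets I N T.2)).card : ℤ)
        = ∑ T ∈ R ×ˢ R, ((X.filter (fun N => meets I N T.1 ∧ meets I N T.2)).card : ℤ) := by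
      exact_mod_cast e
    have e2 : ∀ N ∈ X, ((R.filter (fun T => meets I N T)).card : ℤ) ^ 2
        = (((R ×ˢ R).filter (fun T => meets I N T.1 ∧ meets I N T.2)).card : ℤ) := by
      intro N _
      rw [Finset.filter_product, Finset.card_product]
      push_cast
      ring
    rw [Finset.sum_congr rfl e2, e', Finset.sum_product]
    rw [Finset.sum_congr rfl (g := fun _ => ((s : ℤ) - 1) * t + s * (s - 1))]
    · rw [Finset.sum_const, hRc]; simp
    · intro T hT
      have hT' := hT
      simp only [hR, Finset.mem_filter, Finset.mem_univ, true_and] at hT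
      rw [← Finset.add_sum_erase R _ hT']
      congr 1
      · rw [← h.card_off hKM hT.1 hT.2, hX, Finset.filter_filter]
        congr 2
        ext N; simp
      · rw [Finset.sum_congr rfl (g := fun _ => ((s : ℤ) - 1))]
        · rw [Finset.sum_const, Finset.card_erase_of_mem hT', hRc]; simp
        · intro T' hT2
          rw [Finset.mem_erase] at hT2
          have h3 := hT2.2
          simp only [hR, Finset.mem_filter, Finset.mem_univ, true_and] at h3
          rw [← h.card_off2 hKM (Ne.symm hT2.1) hT.1 hT.2 h3.1 h3.2, hX, Finset.filter_filter]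
  have m3 : ∑ N ∈ X, (((R.filter (fun T => meets I N T)).card : ℤ) - (t + 1)) ^ 2 = 0 := by
    have : ∀ N ∈ X, (((R.filter (fun T => meets I N T)).card : ℤ) - (t + 1)) ^ 2
        = ((R.filter (fun T => meets I N T)).card : ℤ) ^ 2
          - 2 * (t + 1) * ((R.filter (fun T => meets I N T)).card : ℤ) + (t + 1) ^ 2 := by
      intro N _; ring
    rw [Finset.sum_congr rfl this, Finset.sum_add_distrib, Finset.sum_sub_distrib,
      ← Finset.mul_sum, m1, m2, Finset.sum_const, nsmul_eq_mul, hXc, hst]
    push_cast
    ring
  have hN : N ∈ X := by simp [hX, hNK, hNM]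
  have m4 := (Finset.sum_eq_zero_iff_of_nonneg (fun N _ => sq_nonneg _)).mp m3 N hN
  have m5 : ((R.filter (fun T => meets I N T)).card : ℤ) = t + 1 := by
    have := pow_eq_zero_iff (n := 2) (by norm_num) |>.mp m4
    linarith
  have m6 : (R.filter (fun T => meets I N T)).card = t + 1 := by exact_mod_cast m5
  rw [← m6, hR, Finset.filter_filter]
  congr 1
  ext T
  simp only [Finset.mem_filter, Finset.mem_univ, true_and]
  rw [meets_comm (a := T) (b := N)]

end GQ

end Pool.Agent.Helper298
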